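import Mathlib

set_option autoImplicit false

/-!
# The abcd equation is solvable for infinitely many `n` for which the integer form is not

In the sequence of positive integers `2, 17, 41761, …` with `u w = v ^ 4 + 1` for any three consecutive
terms `u, v, w`, adjacent terms `c, d` give the solution `a = c ^ 2 + d ^ 2`, `b = 1` of the abcd equation for
`n = ((c ^ 2 + d ^ 2) ^ 2 + 1) / (c d)`. Modulo `11` the pairs of adjacent terms are periodic with period
`12`, and at every twelfth pair `n` is congruent to `6` modulo `11`. If the integer form is solvable for `n`,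
then `n - 4` is a square, and `2` is not a square modulo `11`.
-/

namespace Pool.Agent.Results.MP_2bef4d_nt.InfinitelyManyExtra

/-- The abcd equation is solvable for `n`. -/
def AbcdSolvable (n : ℕ) : Prop :=
  ∃ a b c d : ℕ, 0 < a ∧ 0 < b ∧ 0 < c ∧ 0 < d ∧
    (n : ℚ) = ((a : ℚ) / b + (b : ℚ) / a) * ((c : ℚ) / d + (d : ℚ) / c)

/-- The integer form is solvable for `n`. -/
def IntegerFormSolvable (n : ℕ) : Prop :=
  ∃ a b : ℕ, 0 < a ∧ 0 < b ∧ (n : ℚ) = ((a : ℚ) + (a : ℚ)⁻¹) * ((b : ℚ) + (b : ℚ)⁻¹)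

/-- Pairs `(c, d)` of adjacent terms. -/
structure Good (c d : ℕ) : Prop where
  pos : 0 < c
  lt : c < d
  h1 : c ∣ d ^ 4 + 1
  h2 : d ∣ c ^ 4 + 1

lemma Good.coprime {c d : ℕ} (h : Good c d) : Nat.Coprime c d := by
  have h3 : Nat.Coprime (d ^ 4) c := by
    have := (Nat.coprime_self_add_right (m := d ^ 4) (n := 1)).2 (Nat.coprime_one_right _)
    exact Nat.Coprime.coprime_dvd_right h.h1 this
  exact ((Nat.coprime_pow_left_iff (by norm_num) _ _).1 h3).symm

lemma Good.next {c d : ℕ} (h : Good c d) : Good d ((d ^ 4 + 1) / c) := by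
  obtain ⟨e, he⟩ := h.h1
  have hq : (d ^ 4 + 1) / c = e := by rw [he]; exact Nat.mul_div_cancel_left e h.pos
  rw [hq]
  have hd : 0 < d := lt_trans h.pos h.lt
  refine ⟨hd, ?_, ?_, ?_⟩
  · by_contra hle
    push Not at hle
    have h1 : d ^ 4 + 1 ≤ c * d := by rw [he]; exact Nat.mul_le_mul_left c hle
    have h2 : c * d ≤ d * d := Nat.mul_le_mul_right d h.lt.le
    have h3 : d * d ≤ d ^ 4 := by
      calc d * d = d ^ 2 := by ring
        _ ≤ d ^ 4 := Nat.pow_le_pow_right hd (by norm_num)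
    omega
  · -- `d ∣ e ^ 4 + 1`
    have hcop : Nat.Coprime d (c ^ 4) := (Nat.Coprime.pow_left 4 h.coprime).symm
    apply hcop.dvd_of_dvd_mul_left
    have hm1 : c * e ≡ 1 [MOD d] := by
      rw [← he]
      have : d ^ 4 + 1 ≡ 0 + 1 [MOD d] := by
        apply Nat.ModEq.add_right
        exact (Nat.modEq_zero_iff_dvd).2 (dvd_pow_self d (by norm_num))
      simpa only [zero_add] using this
    have hm2 : c ^ 4 + 1 ≡ 0 [MOD d] := (Nat.modEq_zero_iff_dvd).2 h.h2
    apply (Nat.modEq_zero_iff_dvd).1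
    calc c ^ 4 * (e ^ 4 + 1) = (c * e) ^ 4 + c ^ 4 := by ring
      _ ≡ 1 ^ 4 + c ^ 4 [MOD d] := Nat.ModEq.add_right _ (hm1.pow 4)
      _ = c ^ 4 + 1 := by ring
      _ ≡ 0 [MOD d] := hm2
  · exact ⟨c, by rw [he]; ring⟩

/-- The pairs of adjacent terms, from `(2, 17)` on. -/
def s : ℕ → ℕ × ℕ
  | 0 => (2, 17)
  | k + 1 => ((s k).2, ((s k).2 ^ 4 + 1) / (s k).1)

lemma good_s (k : ℕ) : Good (s k).1 (s k).2 := by
  induction k with
  | zero => exact ⟨by decide, by decide, by decide, by decide⟩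
  | succ k ih => exact ih.next

lemma le_s (k : ℕ) : k < (s k).2 := by
  induction k with
  | zero => decide
  | succ k ih =>
    have := (good_s (k + 1)).lt
    have h2 : (s (k + 1)).1 = (s k).2 := rfl
    omega

/-- The map on pairs of residues modulo `11`. -/
def F (x : ZMod 11 × ZMod 11) : ZMod 11 × ZMod 11 := (x.2, (x.2 ^ 4 + 1) * x.1 ^ 9)

/-- reduction modulo `11` -/
def red (x : ℕ × ℕ) : ZMod 11 × ZMod 11 := (x.1, x.2)

lemma red_succ (k : ℕ) : red (s (k + 1)) = F (red (s k)) := by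
  have hg := good_s k
  obtain ⟨e, he⟩ := hg.h1
  have hq : ((s k).2 ^ 4 + 1) / (s k).1 = e := by rw [he]; exact Nat.mul_div_cancel_left e hg.pos
  have h1 : s (k + 1) = ((s k).2, e) := by rw [← hq]; rfl
  rw [h1]
  have hc : (((s k).2 : ZMod 11)) ^ 4 + 1 = ((s k).1 : ZMod 11) * (e : ZMod 11) := by
    exact_mod_cast congrArg (Nat.cast : ℕ → ZMod 11) he
  have key : ∀ c d e : ZMod 11, d ^ 4 + 1 = c * e → e = (d ^ 4 + 1) * c ^ 9 := by decide
  unfold red F
  simp only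
  rw [← key _ _ _ hc]

lemma red_add (k j : ℕ) : red (s (k + j)) = F^[j] (red (s k)) := by
  induction j with
  | zero => rfl
  | succ j ih => rw [← add_assoc, red_succ, ih, Function.iterate_succ_apply']

lemma red_mul (j : ℕ) : red (s (12 * j)) = (2, 6) := by
  induction j with
  | zero => decide
  | succ j ih =>
    rw [Nat.mul_succ, red_add, ih]
    decide +kernel

/-- the value `n` of a pair -/
lemma value {c d : ℕ} (h : Good c d) : ∃ n : ℕ, n * (c * d) = (c ^ 2 + d ^ 2) ^ 2 + 1 := by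
  have h1 : c ∣ (c ^ 2 + d ^ 2) ^ 2 + 1 := by
    have : (c ^ 2 + d ^ 2) ^ 2 + 1 = c * (c ^ 3 + 2 * c * d ^ 2) + (d ^ 4 + 1) := by ring
    rw [this]
    exact Dvd.dvd.add (Dvd.intro _ rfl) h.h1
  have h2 : d ∣ (c ^ 2 + d ^ 2) ^ 2 + 1 := by
    have : (c ^ 2 + d ^ 2) ^ 2 + 1 = d * (d ^ 3 + 2 * d * c ^ 2) + (c ^ 4 + 1) := by ring
    rw [this]
    exact Dvd.dvd.add (Dvd.intro _ rfl) h.h2
  obtain ⟨n, hn⟩ := h.coprime.mul_dvd_of_dvd_of_dvd h1 h2
  exact ⟨n, by rw [hn]; ring⟩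

lemma abcd_of {c d n : ℕ} (hc : 0 < c) (hd : 0 < d) (h : n * (c * d) = (c ^ 2 + d ^ 2) ^ 2 + 1) :
    AbcdSolvable n := by
  refine ⟨c ^ 2 + d ^ 2, 1, c, d, by positivity, one_pos, hc, hd, ?_⟩
  have hc' : (c : ℚ) ≠ 0 := by positivity
  have hd' : (d : ℚ) ≠ 0 := by positivity
  have hs : ((c : ℚ) ^ 2 + (d : ℚ) ^ 2) ≠ 0 := by positivity
  have h' : (n : ℚ) * (c * d) = ((c : ℚ) ^ 2 + (d : ℚ) ^ 2) ^ 2 + 1 := by exact_mod_cast h
  have h3 : (n : ℚ) = (((c : ℚ) ^ 2 + (d : ℚ) ^ 2) ^ 2 + 1) / (c * d) := by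
    rw [← h']; field_simp
  rw [h3]
  push_cast
  field_simp

/-- Vieta jumping: if `a ^ 2 + b ^ 2 + 1 = k a b` in positive integers, then `k = 3`. -/
lemma vieta : ∀ N a b k : ℕ, a + b ≤ N → 0 < a → 0 < b → a ^ 2 + b ^ 2 + 1 = k * (a * b) → k = 3 := by
  intro N
  induction N with
  | zero => intro a b k h ha hb; omega
  | succ N ih =>
    have main : ∀ a b k : ℕ, a + b ≤ N + 1 → 0 < a → 0 < b → a < b → a ^ 2 + b ^ 2 + 1 = k * (a * b) →
        k = 3 := by
      intro a b k hN ha hb hab h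
      have hdvd : b ∣ a ^ 2 + 1 := by
        have h1 : b ∣ b ^ 2 + (a ^ 2 + 1) := ⟨k * a, by rw [← add_assoc, add_comm (b ^ 2) (a ^ 2), h]; ring⟩
        exact (Nat.dvd_add_right (dvd_pow_self b (by norm_num))).1 h1
      obtain ⟨b', hb'⟩ := hdvd
      have hb'0 : 0 < b' := by
        rcases Nat.eq_zero_or_pos b' with h0 | h0
        · rw [h0] at hb'; simp at hb'
        · exact h0
      have hlt : b' < b := by
        by_contra hle
        push Not at hle
        have : b * b ≤ a ^ 2 + 1 := by rw [hb']; exact Nat.mul_le_mul_left b hle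
        nlinarith
      have hk : k * a = b + b' := by
        have : b * (k * a) = b * (b + b') := by
          calc b * (k * a) = k * (a * b) := by ring
            _ = a ^ 2 + b ^ 2 + 1 := h.symm
            _ = b ^ 2 + (a ^ 2 + 1) := by ring
            _ = b * (b + b') := by rw [hb']; ring
        exact Nat.eq_of_mul_eq_mul_left hb this
      refine ih a b' k (by omega) ha hb'0 ?_
      calc a ^ 2 + b' ^ 2 + 1 = b' ^ 2 + (a ^ 2 + 1) := by ring
        _ = b' * (b + b') := by rw [hb']; ring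
        _ = k * (a * b') := by rw [← hk]; ring
    intro a b k hN ha hb h
    rcases lt_trichotomy a b with hab | hab | hab
    · exact main a b k hN ha hb hab h
    · subst hab
      have hd : a ^ 2 ∣ 1 := by
        have h1 : a ^ 2 ∣ (a ^ 2 + a ^ 2) + 1 := ⟨k, by rw [h]; ring⟩
        exact (Nat.dvd_add_right (Dvd.dvd.add dvd_rfl dvd_rfl)).1 h1
      have ha1 : a ^ 2 = 1 := Nat.dvd_one.1 hd
      have ha2 : a = 1 := by
        have := Nat.pow_eq_one.1 ha1
        omega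
      subst ha2
      omega
    · refine main b a k (by omega) hb ha hab ?_
      rw [show b ^ 2 + a ^ 2 + 1 = a ^ 2 + b ^ 2 + 1 by ring, h]; ring

/-- If the integer form is solvable for `n`, then `n = m ^ 2 + 4`. -/
lemma square_of_integerForm {n : ℕ} (h : IntegerFormSolvable n) : ∃ m : ℤ, (n : ℤ) = m ^ 2 + 4 := by
  obtain ⟨a, b, ha, hb, h⟩ := h
  have ha' : (a : ℚ) ≠ 0 := by positivity
  have hb' : (b : ℚ) ≠ 0 := by positivity
  have h1 : (n : ℚ) * (a * b) = (a ^ 2 + 1) * (b ^ 2 + 1) := by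
    rw [h]; field_simp
  have h2 : n * (a * b) = (a ^ 2 + 1) * (b ^ 2 + 1) := by exact_mod_cast h1
  have d1 : a ∣ b ^ 2 + 1 := by
    have hco : Nat.Coprime a (a ^ 2 + 1) := by
      have : Nat.Coprime (a ^ 2) (a ^ 2 + 1) := by simp
      exact Nat.Coprime.coprime_dvd_left (dvd_pow_self a (by norm_num)) this
    exact hco.dvd_of_dvd_mul_left ⟨n * b, by rw [← h2]; ring⟩
  have d2 : b ∣ a ^ 2 + 1 := by
    have hco : Nat.Coprime b (b ^ 2 + 1) := by
      have : Nat.Coprime (b ^ 2) (b ^ 2 + 1) := by simp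
      exact Nat.Coprime.coprime_dvd_left (dvd_pow_self b (by norm_num)) this
    exact hco.dvd_of_dvd_mul_right ⟨n * a, by rw [← h2]; ring⟩
  have hab : Nat.Coprime a b := by
    have : Nat.Coprime (b ^ 2) (b ^ 2 + 1) := by simp
    have h3 : Nat.Coprime (b ^ 2) a := Nat.Coprime.coprime_dvd_right d1 this
    exact ((Nat.coprime_pow_left_iff (by norm_num) _ _).1 h3).symm
  have d3 : a ∣ a ^ 2 + b ^ 2 + 1 := by
    rw [add_assoc]
    exact Dvd.dvd.add (dvd_pow_self a (by norm_num)) d1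
  have d4 : b ∣ a ^ 2 + b ^ 2 + 1 := by
    rw [show a ^ 2 + b ^ 2 + 1 = b ^ 2 + (a ^ 2 + 1) by ring]
    exact Dvd.dvd.add (dvd_pow_self b (by norm_num)) d2
  obtain ⟨k, hk⟩ := hab.mul_dvd_of_dvd_of_dvd d3 d4
  have hk3 : k = 3 := vieta (a + b) a b k le_rfl ha hb (by rw [hk]; ring)
  subst hk3
  refine ⟨(a : ℤ) - b, ?_⟩
  have hz1 : (n : ℤ) * (a * b) = (a ^ 2 + 1) * (b ^ 2 + 1) := by exact_mod_cast h2
  have hz2 : (a : ℤ) ^ 2 + b ^ 2 + 1 = a * b * 3 := by exact_mod_cast hk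
  have hz3 : (n : ℤ) * (a * b) = (a * b + 3) * (a * b) := by
    rw [hz1]
    linear_combination hz2
  have hz4 : (n : ℤ) = a * b + 3 := mul_right_cancel₀ (by positivity) hz3
  rw [hz4]
  linear_combination -hz2

theorem result : {n : ℕ | 0 < n ∧ AbcdSolvable n ∧ ¬ IntegerFormSolvable n}.Infinite := by
  apply Set.infinite_of_forall_exists_gt
  intro B
  have hg := good_s (12 * B)
  have hle := le_s (12 * B)
  have hred := red_mul B
  obtain ⟨n, hn⟩ := value hg
  set c := (s (12 * B)).1 with hc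
  set d := (s (12 * B)).2 with hd
  have hdpos : 0 < d := by omega
  have hBn : B < n := by
    by_contra hcon
    push Not at hcon
    have h1 : n * (c * d) ≤ d * (d * d) :=
      Nat.mul_le_mul (by omega) (Nat.mul_le_mul_right d hg.lt.le)
    have h2 : d * (d * d) ≤ d ^ 4 := by
      calc d * (d * d) = d ^ 3 := by ring
        _ ≤ d ^ 4 := Nat.pow_le_pow_right hdpos (by norm_num)
    have h3 : d ^ 4 ≤ (c ^ 2 + d ^ 2) ^ 2 := by
      calc d ^ 4 = (d ^ 2) ^ 2 := by ring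
        _ ≤ (c ^ 2 + d ^ 2) ^ 2 := Nat.pow_le_pow_left (Nat.le_add_left _ _) 2
    omega
  refine ⟨n, ⟨by omega, abcd_of hg.pos hdpos hn, ?_⟩, hBn⟩
  intro hint
  obtain ⟨m, hm⟩ := square_of_integerForm hint
  have hx : ((c : ZMod 11)) = 2 := congrArg Prod.fst hred
  have hy : ((d : ZMod 11)) = 6 := congrArg Prod.snd hred
  have h1 : (n : ZMod 11) * ((c : ZMod 11) * d) = ((c : ZMod 11) ^ 2 + (d : ZMod 11) ^ 2) ^ 2 + 1 := by
    exact_mod_cast congrArg (Nat.cast : ℕ → ZMod 11) hn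
  rw [hx, hy] at h1
  have h2 : (n : ZMod 11) = (m : ZMod 11) ^ 2 + 4 := by
    exact_mod_cast congrArg (Int.cast : ℤ → ZMod 11) hm
  rw [h2] at h1
  have key : ∀ m : ZMod 11, (m ^ 2 + 4) * (2 * 6) ≠ (2 ^ 2 + 6 ^ 2) ^ 2 + 1 := by decide
  exact key _ h1

end Pool.Agent.Results.MP_2bef4d_nt.InfinitelyManyExtra
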